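import Mathlib

/-!
# Diameter over average distance: balanced bugs
-/

set_option autoImplicit false

namespace Pool.Agent.N944.BG

open Finset

/-- The diameter of a finite connected graph: the largest distance of two vertices. -/
noncomputable def diameter {V : Type*} [Fintype V] (G : SimpleGraph V) : ℕ :=
  (Finset.univ : Finset (V × V)).sup fun x => G.dist x.1 x.2

/-- The average distance: the mean of the distances over the ordered pairs of distinct vertices
(the same as the mean over the unordered pairs). -/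
noncomputable def avgDist {V : Type*} [Fintype V] (G : SimpleGraph V) : ℝ :=
  (∑ u : V, ∑ v : V, (G.dist u v : ℝ)) / ((Fintype.card V : ℝ) * ((Fintype.card V : ℝ) - 1))

/-- Adjacency of the bug, before symmetrisation. The vertices are the vertices `0, …, p-1` of
the complete graph (the deleted edge is `01`), the vertices of the path attached to `0` and those
of the path attached to `1`; the first vertex of each path is joined to `0`, resp. `1`. -/
def bugRel (p k₁ k₂ : ℕ) : Fin p ⊕ (Fin k₁ ⊕ Fin k₂) → Fin p ⊕ (Fin k₁ ⊕ Fin k₂) → Prop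
  | .inl i, .inl j => ¬ ((i : ℕ) = 0 ∧ (j : ℕ) = 1) ∧ ¬ ((i : ℕ) = 1 ∧ (j : ℕ) = 0)
  | .inl i, .inr (.inl a) => (i : ℕ) = 0 ∧ (a : ℕ) = 0
  | .inl i, .inr (.inr b) => (i : ℕ) = 1 ∧ (b : ℕ) = 0
  | .inr (.inl a), .inr (.inl a') => (a' : ℕ) = a + 1
  | .inr (.inr b), .inr (.inr b') => (b' : ℕ) = b + 1
  | _, _ => False

/-- The graph `Bug_{p,k₁,k₂}`. -/
def Bug (p k₁ k₂ : ℕ) : SimpleGraph (Fin p ⊕ (Fin k₁ ⊕ Fin k₂)) :=
  SimpleGraph.fromRel (bugRel p k₁ k₂)

/-- The level of a vertex of the bug. -/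
def lev (p k₁ k₂ : ℕ) : Fin p ⊕ (Fin k₁ ⊕ Fin k₂) → ℕ
  | .inl i => if (i : ℕ) = 0 then k₁ else if (i : ℕ) = 1 then k₁ + 2 else k₁ + 1
  | .inr (.inl a) => k₁ - 1 - a
  | .inr (.inr b) => k₁ + 3 + b

theorem bug_adj (p k₁ k₂ : ℕ) (x y : Fin p ⊕ (Fin k₁ ⊕ Fin k₂)) :
    (Bug p k₁ k₂).Adj x y ↔ x ≠ y ∧ lev p k₁ k₂ x ≤ lev p k₁ k₂ y + 1 ∧
      lev p k₁ k₂ y ≤ lev p k₁ k₂ x + 1 := by
  unfold Bug
  rw [SimpleGraph.fromRel_adj]
  apply and_congr_right
  intro hne
  rcases x with i | a | b <;> rcases y with j | a' | b'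
  · have hij : (i : ℕ) ≠ j := fun h => hne (by rw [Fin.ext h])
    simp only [bugRel, lev, or_false, false_or]
    split_ifs <;> omega
  · have ha' := a'.isLt
    simp only [bugRel, lev, or_false, false_or]
    split_ifs <;> omega
  · have hb' := b'.isLt
    simp only [bugRel, lev, or_false, false_or]
    split_ifs <;> omega
  · have ha := a.isLt
    simp only [bugRel, lev, or_false, false_or]
    split_ifs <;> omega
  · have hij : (a : ℕ) ≠ a' := fun h => hne (by rw [Fin.ext h])
    have ha := a.isLt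
    have ha' := a'.isLt
    simp only [bugRel, lev, or_false, false_or]
    omega
  · have ha := a.isLt
    simp only [bugRel, lev, or_self, false_iff]
    omega
  · have hb := b.isLt
    simp only [bugRel, lev, or_false, false_or]
    split_ifs <;> omega
  · have ha' := a'.isLt
    simp only [bugRel, lev, or_self, false_iff]
    omega
  · have hij : (b : ℕ) ≠ b' := fun h => hne (by rw [Fin.ext h])
    simp only [bugRel, lev, or_false, false_or]
    omega

/-- a representative of each level -/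
def rep (p k₁ k₂ : ℕ) (hp : 3 ≤ p) (i : Fin (k₁ + k₂ + 3)) : Fin p ⊕ (Fin k₁ ⊕ Fin k₂) :=
  if h1 : (i : ℕ) < k₁ then .inr (.inl ⟨k₁ - 1 - i, by omega⟩)
  else if h2 : (i : ℕ) = k₁ then .inl ⟨0, by omega⟩
  else if h3 : (i : ℕ) = k₁ + 1 then .inl ⟨2, by omega⟩
  else if h4 : (i : ℕ) = k₁ + 2 then .inl ⟨1, by omega⟩
  else .inr (.inr ⟨i - (k₁ + 3), by omega⟩)

theorem lev_rep (p k₁ k₂ : ℕ) (hp : 3 ≤ p) (i : Fin (k₁ + k₂ + 3)) :
    lev p k₁ k₂ (rep p k₁ k₂ hp i) = i := by
  unfold rep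
  split_ifs with h1 h2 h3 h4
  · simp only [lev]; omega
  · simp only [lev]; simp; omega
  · simp only [lev]; simp; omega
  · simp only [lev]; simp; omega
  · simp only [lev]; omega

theorem lev_of_not_rep (p k₁ k₂ : ℕ) (hp : 3 ≤ p) (x : Fin p ⊕ (Fin k₁ ⊕ Fin k₂))
    (hx : ∀ i, rep p k₁ k₂ hp i ≠ x) : lev p k₁ k₂ x = k₁ + 1 := by
  rcases x with i | a | b
  · by_cases h0 : (i : ℕ) = 0
    · exfalso
      apply hx ⟨k₁, by omega⟩
      unfold rep
      rw [dif_neg (by simp), dif_pos rfl]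
      congr 1
      exact Fin.ext h0.symm
    · by_cases h1 : (i : ℕ) = 1
      · exfalso
        apply hx ⟨k₁ + 2, by omega⟩
        unfold rep
        rw [dif_neg (by simp), dif_neg (by simp), dif_neg (by simp), dif_pos rfl]
        congr 1
        exact Fin.ext h1.symm
      · simp only [lev, if_neg h0, if_neg h1]
  · exfalso
    have ha := a.isLt
    apply hx ⟨k₁ - 1 - a, by omega⟩
    unfold rep
    rw [dif_pos (by simp; omega)]
    congr 2
    apply Fin.ext
    simp
    omega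
  · exfalso
    have hb := b.isLt
    apply hx ⟨k₁ + 3 + b, by omega⟩
    unfold rep
    rw [dif_neg (by simp only; omega), dif_neg (by simp only; omega), dif_neg (by simp only; omega),
      dif_neg (by simp only; omega)]
    congr 2
    apply Fin.ext
    simp

/-- Splitting a symmetric double sum along an injective family. -/
theorem split_sum {V : Type*} [Fintype V] [DecidableEq V] {m : ℕ} (v : Fin m → V)
    (hv : Function.Injective v) (f : V → V → ℕ) (hf : ∀ x y, f x y = f y x) :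
    ∑ x : V, ∑ y : V, f x y
      = ∑ i : Fin m, ∑ j : Fin m, f (v i) (v j)
        + 2 * ∑ w ∈ (univ.image v)ᶜ, ∑ i : Fin m, f w (v i)
        + ∑ x ∈ (univ.image v)ᶜ, ∑ y ∈ (univ.image v)ᶜ, f x y := by
  have him : ∀ g : V → ℕ, ∑ x ∈ univ.image v, g x = ∑ i : Fin m, g (v i) := fun g =>
    Finset.sum_image (fun a _ b _ h => hv h)
  have hs : ∀ g : V → ℕ, ∑ x : V, g x = ∑ i : Fin m, g (v i) + ∑ x ∈ (univ.image v)ᶜ, g x := by
    intro g
    rw [← him, Finset.sum_add_sum_compl]
  rw [hs]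
  simp_rw [hs]
  rw [Finset.sum_add_distrib, Finset.sum_add_distrib]
  have : ∑ i : Fin m, ∑ x ∈ (univ.image v)ᶜ, f (v i) x = ∑ w ∈ (univ.image v)ᶜ, ∑ i : Fin m, f w (v i) := by
    rw [Finset.sum_comm]
    exact Finset.sum_congr rfl fun w _ => Finset.sum_congr rfl fun i _ => hf _ _
  rw [this]
  ring

theorem card_compl_image {V : Type*} [Fintype V] [DecidableEq V] {m : ℕ} (v : Fin m → V)
    (hv : Function.Injective v) : ((univ.image v)ᶜ).card + m = Fintype.card V := by
  rw [Finset.card_compl, Finset.card_image_of_injective _ hv, Finset.card_univ, Fintype.card_fin]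
  have := Fintype.card_le_of_injective v hv
  rw [Fintype.card_fin] at this
  omega

/-- `|a - b|` in `ℕ` -/
def ad (a b : ℕ) : ℕ := (a - b) + (b - a)

/-- The sum of the distances from level `l` to the levels `0, …, D`. -/
theorem sum_ad (D l : ℕ) (hl : l ≤ D) :
    2 * ∑ i ∈ range (D + 1), ad l i = l * (l + 1) + (D - l) * (D - l + 1) := by
  obtain ⟨k, rfl⟩ := Nat.exists_eq_add_of_le hl
  rw [Nat.add_sub_cancel_left]
  induction k with
  | zero =>
    clear hl
    rw [Nat.add_zero, Nat.zero_mul, Nat.add_zero]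
    induction l with
    | zero => simp [ad]
    | succ l ih =>
      rw [Finset.sum_range_succ]
      have h1 : ∑ i ∈ range (l + 1), ad (l + 1) i = ∑ i ∈ range (l + 1), ad l i + (l + 1) := by
        rw [Finset.sum_congr rfl (g := fun i => ad l i + 1)]
        · rw [Finset.sum_add_distrib]; simp
        · intro i hi
          rw [Finset.mem_range] at hi
          unfold ad; omega
      rw [h1, mul_add, mul_add, ih]
      unfold ad
      simp
      ring
  | succ k ih =>
    rw [show l + (k + 1) + 1 = (l + k + 1) + 1 by ring, Finset.sum_range_succ, mul_add,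
      ih (by omega)]
    have : ad l (l + k + 1) = k + 1 := by unfold ad; omega
    rw [this]
    ring

/-- The balanced level minimises the sum of distances. -/
theorem sum_ad_min (k₁ k₂ l : ℕ) (h1 : k₁ ≤ k₂ + 1) (h2 : k₂ ≤ k₁ + 1) (hl : l ≤ k₁ + k₂ + 2) :
    ∑ i ∈ range (k₁ + k₂ + 2 + 1), ad (k₁ + 1) i ≤ ∑ i ∈ range (k₁ + k₂ + 2 + 1), ad l i := by
  have e1 := sum_ad (k₁ + k₂ + 2) l hl
  have e2 := sum_ad (k₁ + k₂ + 2) (k₁ + 1) (by omega)
  have key : (k₁ + 1) * (k₁ + 1 + 1) + (k₁ + k₂ + 2 - (k₁ + 1)) * (k₁ + k₂ + 2 - (k₁ + 1) + 1)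
      ≤ l * (l + 1) + (k₁ + k₂ + 2 - l) * (k₁ + k₂ + 2 - l + 1) := by
    rw [show k₁ + k₂ + 2 - (k₁ + 1) = k₂ + 1 by omega]
    obtain ⟨t, ht⟩ : ∃ t, k₁ + k₂ + 2 = l + t := ⟨k₁ + k₂ + 2 - l, by omega⟩
    rw [ht, Nat.add_sub_cancel_left]
    -- a = k₁+1, b = k₂+1, a + b = l + t, |a - b| ≤ 1
    zify at *
    have hab : ((k₁ : ℤ) - k₂) ^ 2 ≤ ((l : ℤ) - t) ^ 2 := by
      have p1 : ((k₁ : ℤ) - k₂) ^ 2 ≤ 1 := by
        have a1 : -1 ≤ (k₁ : ℤ) - k₂ := by omega
        have a2 : (k₁ : ℤ) - k₂ ≤ 1 := by omega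
        nlinarith
      by_cases h0 : (l : ℤ) - t = 0
      · have : (k₁ : ℤ) - k₂ = 0 := by omega
        rw [this, h0]
      · have : 1 ≤ ((l : ℤ) - t) ^ 2 := by
          rcases lt_or_gt_of_ne h0 with h | h <;> nlinarith
        linarith
    nlinarith
  omega

/-- Distances from below. -/
theorem lower_bound {V : Type*} [Fintype V] [DecidableEq V] (G : SimpleGraph V) (hG : G.Connected)
    (k₁ k₂ : ℕ) (h1 : k₁ ≤ k₂ + 1) (h2 : k₂ ≤ k₁ + 1) (lv : V → ℕ)
    (hlv : ∀ x y, ad (lv x) (lv y) ≤ G.dist x y) (hmax : ∀ x, lv x ≤ k₁ + k₂ + 2)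
    (v : Fin (k₁ + k₂ + 2 + 1) → V) (hv : ∀ i, lv (v i) = i) :
    ∑ i : Fin (k₁ + k₂ + 2 + 1), ∑ j : Fin (k₁ + k₂ + 2 + 1), ad i j
      + 2 * ((Fintype.card V - (k₁ + k₂ + 2 + 1)) * (1 + ∑ i : Fin (k₁ + k₂ + 2 + 1), ad (k₁ + 1) i))
      + (Fintype.card V - (k₁ + k₂ + 2 + 1)) * (Fintype.card V - (k₁ + k₂ + 2 + 1) - 1)
      ≤ ∑ x : V, ∑ y : V, G.dist x y := by
  have hinj : Function.Injective v := by
    intro i j hij
    apply Fin.ext
    rw [← hv i, ← hv j, hij]
  rw [split_sum v hinj (fun x y => G.dist x y) (fun x y => G.dist_comm)]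
  have hcard := card_compl_image v hinj
  have hR : ((univ.image v)ᶜ).card = Fintype.card V - (k₁ + k₂ + 2 + 1) := by omega
  have hpos : ∀ x y : V, x ≠ y → 1 ≤ G.dist x y := fun x y hxy =>
    Nat.one_le_iff_ne_zero.mpr (fun h => hxy ((hG.dist_eq_zero_iff).mp h))
  apply Nat.add_le_add (Nat.add_le_add _ _) _
  · apply Finset.sum_le_sum; intro i _; apply Finset.sum_le_sum; intro j _
    have := hlv (v i) (v j)
    rwa [hv, hv] at this
  · apply Nat.mul_le_mul_left
    rw [← hR, ← smul_eq_mul]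
    apply Finset.card_nsmul_le_sum
    intro w hw
    rw [Finset.mem_compl, Finset.mem_image] at hw
    have hne : ∀ i, w ≠ v i := fun i h => hw ⟨i, Finset.mem_univ _, h.symm⟩
    have hl := hmax w
    -- sum of max (1, |..|)
    have hsum : 1 + ∑ i : Fin (k₁ + k₂ + 2 + 1), ad (lv w) i
        = ∑ i : Fin (k₁ + k₂ + 2 + 1), (ad (lv w) i + if (i : ℕ) = lv w then 1 else 0) := by
      rw [Finset.sum_add_distrib, add_comm]
      congr 1
      rw [Finset.sum_eq_single (⟨lv w, by omega⟩ : Fin (k₁ + k₂ + 2 + 1))]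
      · simp
      · intro b _ hb
        rw [if_neg]
        intro h; apply hb; exact Fin.ext h
      · intro h; exact absurd (Finset.mem_univ _) h
    calc 1 + ∑ i : Fin (k₁ + k₂ + 2 + 1), ad (k₁ + 1) i
        ≤ 1 + ∑ i : Fin (k₁ + k₂ + 2 + 1), ad (lv w) i := by
          apply Nat.add_le_add_left
          rw [Fin.sum_univ_eq_sum_range (fun i => ad (k₁ + 1) i),
            Fin.sum_univ_eq_sum_range (fun i => ad (lv w) i)]
          exact sum_ad_min k₁ k₂ (lv w) h1 h2 hl
      _ = _ := hsum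
      _ ≤ _ := by
          apply Finset.sum_le_sum
          intro i _
          split_ifs with h
          · have := hpos w (v i) (hne i)
            have h0 : ad (lv w) i = 0 := by unfold ad; omega
            omega
          · have := hlv w (v i)
            rw [hv] at this
            omega
  · rw [← hR]
    have : ((univ.image v)ᶜ).card * (((univ.image v)ᶜ).card - 1)
        = ∑ x ∈ (univ.image v)ᶜ, (((univ.image v)ᶜ).card - 1) := by
      rw [Finset.sum_const, smul_eq_mul]
    rw [this]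
    apply Finset.sum_le_sum
    intro x hx
    rw [← Finset.card_erase_of_mem hx, Finset.card_eq_sum_ones,
      ← Finset.add_sum_erase _ _ hx]
    refine le_trans ?_ (Nat.le_add_left _ _)
    apply Finset.sum_le_sum
    intro y hy
    exact hpos x y (Finset.ne_of_mem_erase hy).symm

end Pool.Agent.N944.BG
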