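import Pool.Agent.N944.BG.Base

/-!
# Diameter over average distance: the maximum is attained by a balanced bug
-/

set_option autoImplicit false

namespace Pool.Agent.N944.BG

open Finset

/-- For a layered graph the distance is at most the level difference (at least one). -/
theorem bug_dist_le (p k₁ k₂ : ℕ) (hp : 3 ≤ p) (d : ℕ) :
    ∀ x y : Fin p ⊕ (Fin k₁ ⊕ Fin k₂), lev p k₁ k₂ y = lev p k₁ k₂ x + d → 1 ≤ d →
      lev p k₁ k₂ y ≤ k₁ + k₂ + 2 →
      ∃ w : (Bug p k₁ k₂).Walk x y, w.length = d := by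
  induction d with
  | zero => intro x y _ h; omega
  | succ d ih =>
    intro x y hxy _ hy
    rcases Nat.eq_zero_or_pos d with rfl | hd
    · have hadj : (Bug p k₁ k₂).Adj x y := by
        rw [bug_adj]
        refine ⟨?_, by omega, by omega⟩
        rintro rfl
        omega
      exact ⟨SimpleGraph.Walk.cons hadj SimpleGraph.Walk.nil, rfl⟩
    · -- a vertex on the next level
      let z := rep p k₁ k₂ hp ⟨lev p k₁ k₂ x + 1, by omega⟩
      have hz : lev p k₁ k₂ z = lev p k₁ k₂ x + 1 := lev_rep p k₁ k₂ hp _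
      have hadj : (Bug p k₁ k₂).Adj x z := by
        rw [bug_adj]
        refine ⟨?_, by omega, by omega⟩
        intro h
        rw [← h] at hz
        omega
      obtain ⟨w, hw⟩ := ih z y (by omega) hd hy
      exact ⟨SimpleGraph.Walk.cons hadj w, by rw [SimpleGraph.Walk.length_cons, hw]⟩

theorem lev_le (p k₁ k₂ : ℕ) (x : Fin p ⊕ (Fin k₁ ⊕ Fin k₂)) : lev p k₁ k₂ x ≤ k₁ + k₂ + 2 := by
  rcases x with i | a | b
  · simp only [lev]; split_ifs <;> omega
  · simp only [lev]; omega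
  · have := b.isLt
    simp only [lev]; omega

/-- Walks have length at least the level difference. -/
theorem lev_walk (p k₁ k₂ : ℕ) {x y : Fin p ⊕ (Fin k₁ ⊕ Fin k₂)} (w : (Bug p k₁ k₂).Walk x y) :
    ad (lev p k₁ k₂ x) (lev p k₁ k₂ y) ≤ w.length := by
  induction w with
  | nil => simp [ad]
  | cons h w ih =>
    rw [bug_adj] at h
    rw [SimpleGraph.Walk.length_cons]
    unfold ad at *
    omega

theorem bug_connected (p k₁ k₂ : ℕ) (hp : 3 ≤ p) : (Bug p k₁ k₂).Connected := by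
  have : Nonempty (Fin p ⊕ (Fin k₁ ⊕ Fin k₂)) := ⟨.inl ⟨0, by omega⟩⟩
  refine SimpleGraph.Connected.mk fun x y => ?_
  by_cases hxy : x = y
  · rw [hxy]
  · rcases lt_trichotomy (lev p k₁ k₂ x) (lev p k₁ k₂ y) with h | h | h
    · obtain ⟨w, _⟩ := bug_dist_le p k₁ k₂ hp (lev p k₁ k₂ y - lev p k₁ k₂ x) x y (by omega) (by omega)
        (lev_le _ _ _ _)
      exact ⟨w⟩
    · exact SimpleGraph.Adj.reachable ((bug_adj p k₁ k₂ x y).mpr ⟨hxy, by omega, by omega⟩)
    · obtain ⟨w, _⟩ := bug_dist_le p k₁ k₂ hp (lev p k₁ k₂ x - lev p k₁ k₂ y) y x (by omega) (by omega)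
        (lev_le _ _ _ _)
      exact ⟨w.reverse⟩

/-- The distance in the bug. -/
theorem bug_dist (p k₁ k₂ : ℕ) (hp : 3 ≤ p) (x y : Fin p ⊕ (Fin k₁ ⊕ Fin k₂)) :
    ad (lev p k₁ k₂ x) (lev p k₁ k₂ y) ≤ (Bug p k₁ k₂).dist x y ∧
    (lev p k₁ k₂ x ≠ lev p k₁ k₂ y →
      (Bug p k₁ k₂).dist x y ≤ ad (lev p k₁ k₂ x) (lev p k₁ k₂ y)) ∧
    (Bug p k₁ k₂).dist x y ≤ ad (lev p k₁ k₂ x) (lev p k₁ k₂ y) + 1 ∧
    (x = y → (Bug p k₁ k₂).dist x y = 0) := by
  have hc := bug_connected p k₁ k₂ hp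
  have main : lev p k₁ k₂ x ≠ lev p k₁ k₂ y →
      (Bug p k₁ k₂).dist x y ≤ ad (lev p k₁ k₂ x) (lev p k₁ k₂ y) := by
    intro hne
    rcases lt_or_gt_of_ne hne with h | h
    · obtain ⟨w, hw⟩ := bug_dist_le p k₁ k₂ hp (lev p k₁ k₂ y - lev p k₁ k₂ x) x y (by omega) (by omega)
        (lev_le _ _ _ _)
      refine le_trans (SimpleGraph.dist_le w) ?_
      rw [hw]; unfold ad; omega
    · obtain ⟨w, hw⟩ := bug_dist_le p k₁ k₂ hp (lev p k₁ k₂ x - lev p k₁ k₂ y) y x (by omega) (by omega)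
        (lev_le _ _ _ _)
      rw [SimpleGraph.dist_comm]
      refine le_trans (SimpleGraph.dist_le w) ?_
      rw [hw]; unfold ad; omega
  refine ⟨?_, main, ?_, ?_⟩
  · obtain ⟨w, hw⟩ := hc.exists_walk_length_eq_dist x y
    rw [← hw]
    exact lev_walk p k₁ k₂ w
  · by_cases h : lev p k₁ k₂ x = lev p k₁ k₂ y
    · by_cases hxy : x = y
      · rw [hxy, SimpleGraph.dist_self]; omega
      · have hadj : (Bug p k₁ k₂).Adj x y := (bug_adj p k₁ k₂ x y).mpr ⟨hxy, by omega, by omega⟩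
        rw [SimpleGraph.dist_eq_one_iff_adj.mpr hadj]
        omega
    · exact le_trans (main h) (Nat.le_succ _)
  · rintro rfl
    exact SimpleGraph.dist_self

/-- Distances in the bug from above. -/
theorem upper_bound (p k₁ k₂ : ℕ) (hp : 3 ≤ p) :
    ∑ x : Fin p ⊕ (Fin k₁ ⊕ Fin k₂), ∑ y : Fin p ⊕ (Fin k₁ ⊕ Fin k₂), (Bug p k₁ k₂).dist x y ≤
    ∑ i : Fin (k₁ + k₂ + 2 + 1), ∑ j : Fin (k₁ + k₂ + 2 + 1), ad i j
      + 2 * ((p + k₁ + k₂ - (k₁ + k₂ + 2 + 1)) *
        (1 + ∑ i : Fin (k₁ + k₂ + 2 + 1), ad (k₁ + 1) i))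
      + (p + k₁ + k₂ - (k₁ + k₂ + 2 + 1)) * (p + k₁ + k₂ - (k₁ + k₂ + 2 + 1) - 1) := by
  let v : Fin (k₁ + k₂ + 2 + 1) → Fin p ⊕ (Fin k₁ ⊕ Fin k₂) := rep p k₁ k₂ hp
  have hv : ∀ i, lev p k₁ k₂ (v i) = i := lev_rep p k₁ k₂ hp
  have hinj : Function.Injective v := by
    intro i j hij
    apply Fin.ext
    rw [← hv i, ← hv j, hij]
  rw [split_sum v hinj (fun x y => (Bug p k₁ k₂).dist x y) (fun x y => SimpleGraph.dist_comm)]
  have hcard := card_compl_image v hinj
  have hcV : Fintype.card (Fin p ⊕ (Fin k₁ ⊕ Fin k₂)) = p + k₁ + k₂ := by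
    rw [Fintype.card_sum, Fintype.card_sum, Fintype.card_fin, Fintype.card_fin, Fintype.card_fin]
    ring
  rw [hcV] at hcard
  have hR : ((univ.image v)ᶜ).card = p + k₁ + k₂ - (k₁ + k₂ + 2 + 1) := by omega
  apply Nat.add_le_add (Nat.add_le_add _ _) _
  · apply Finset.sum_le_sum; intro i _; apply Finset.sum_le_sum; intro j _
    by_cases hij : i = j
    · rw [hij, SimpleGraph.dist_self]; exact Nat.zero_le _
    · have h := (bug_dist p k₁ k₂ hp (v i) (v j)).2.1
      rw [hv, hv] at h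
      exact h (fun h => hij (Fin.ext h))
  · apply Nat.mul_le_mul_left
    rw [← hR, ← smul_eq_mul]
    apply Finset.sum_le_card_nsmul
    intro w hw
    rw [Finset.mem_compl, Finset.mem_image] at hw
    have hlw : lev p k₁ k₂ w = k₁ + 1 :=
      lev_of_not_rep p k₁ k₂ hp w (fun i h => hw ⟨i, Finset.mem_univ _, h⟩)
    have hsum : 1 + ∑ i : Fin (k₁ + k₂ + 2 + 1), ad (k₁ + 1) i
        = ∑ i : Fin (k₁ + k₂ + 2 + 1), (ad (k₁ + 1) i + if (i : ℕ) = k₁ + 1 then 1 else 0) := by
      rw [Finset.sum_add_distrib, add_comm]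
      congr 1
      rw [Finset.sum_eq_single (⟨k₁ + 1, by omega⟩ : Fin (k₁ + k₂ + 2 + 1))]
      · simp
      · intro b _ hb
        rw [if_neg]
        intro h; apply hb; exact Fin.ext h
      · intro h; exact absurd (Finset.mem_univ _) h
    rw [hsum]
    apply Finset.sum_le_sum
    intro i _
    have h := bug_dist p k₁ k₂ hp w (v i)
    rw [hlw, hv] at h
    split_ifs with hi
    · exact h.2.2.1
    · exact h.2.1 (fun h => hi h.symm)
  · rw [← hR]
    have : ((univ.image v)ᶜ).card * (((univ.image v)ᶜ).card - 1)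
        = ∑ x ∈ (univ.image v)ᶜ, (((univ.image v)ᶜ).card - 1) := by
      rw [Finset.sum_const, smul_eq_mul]
    rw [this]
    apply Finset.sum_le_sum
    intro x hx
    rw [← Finset.card_erase_of_mem hx, Finset.card_eq_sum_ones,
      ← Finset.add_sum_erase _ _ hx, SimpleGraph.dist_self, Nat.zero_add]
    apply Finset.sum_le_sum
    intro y hy
    have hlev : ∀ w ∈ (univ.image v)ᶜ, lev p k₁ k₂ w = k₁ + 1 := by
      intro w hw
      rw [Finset.mem_compl, Finset.mem_image] at hw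
      exact lev_of_not_rep p k₁ k₂ hp w (fun i h => hw ⟨i, Finset.mem_univ _, h⟩)
    have h := (bug_dist p k₁ k₂ hp x y).2.2.1
    rw [hlev x hx, hlev y (Finset.mem_of_mem_erase hy)] at h
    simpa [ad] using h

theorem le_diameter {V : Type*} [Fintype V] (G : SimpleGraph V) (x y : V) :
    G.dist x y ≤ diameter G :=
  Finset.le_sup (f := fun x : V × V => G.dist x.1 x.2) (Finset.mem_univ (x, y))

theorem diameter_bug (p k₁ k₂ : ℕ) (hp : 3 ≤ p) : diameter (Bug p k₁ k₂) = k₁ + k₂ + 2 := by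
  apply le_antisymm
  · apply Finset.sup_le
    rintro ⟨x, y⟩ _
    dsimp only
    have h := bug_dist p k₁ k₂ hp x y
    have hx := lev_le p k₁ k₂ x
    have hy := lev_le p k₁ k₂ y
    by_cases hne : lev p k₁ k₂ x = lev p k₁ k₂ y
    · have h3 := h.2.2.1
      rw [hne] at h3
      unfold ad at h3
      omega
    · have h2 := h.2.1 hne
      unfold ad at h2
      omega
  · have h := (bug_dist p k₁ k₂ hp (rep p k₁ k₂ hp ⟨0, by omega⟩)
      (rep p k₁ k₂ hp ⟨k₁ + k₂ + 2, by omega⟩)).1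
    rw [lev_rep, lev_rep] at h
    refine le_trans ?_ (le_trans h (le_diameter _ _ _))
    unfold ad
    simp

/-- Every connected graph of diameter `k₁ + k₂ + 2` has at least the total distance of the balanced
bug with the same number of vertices. -/
theorem total_le {V : Type*} [Fintype V] (G : SimpleGraph V) (hG : G.Connected)
    (p k₁ k₂ : ℕ) (hp : 3 ≤ p) (h1 : k₁ ≤ k₂ + 1) (h2 : k₂ ≤ k₁ + 1)
    (hcard : Fintype.card V = p + k₁ + k₂) (hD : diameter G = k₁ + k₂ + 2) :
    ∑ x : Fin p ⊕ (Fin k₁ ⊕ Fin k₂), ∑ y : Fin p ⊕ (Fin k₁ ⊕ Fin k₂), (Bug p k₁ k₂).dist x y ≤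
    ∑ x : V, ∑ y : V, G.dist x y := by
  classical
  have hne : Nonempty V := hG.nonempty
  obtain ⟨⟨a, b⟩, _, hab⟩ := Finset.exists_mem_eq_sup (Finset.univ : Finset (V × V))
    ⟨(hne.some, hne.some), Finset.mem_univ _⟩ (fun x : V × V => G.dist x.1 x.2)
  have hab' : G.dist a b = k₁ + k₂ + 2 := by rw [← hD]; exact hab.symm
  -- vertices of each level
  have hlevel : ∀ i : Fin (k₁ + k₂ + 2 + 1), ∃ x : V, G.dist a x = i := by
    intro i
    obtain ⟨w, hw⟩ := hG.exists_walk_length_eq_dist a b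
    have hi : (i : ℕ) ≤ w.length := by have := i.isLt; omega
    refine ⟨w.getVert i, ?_⟩
    apply le_antisymm
    · have := SimpleGraph.dist_le (w.take i)
      rw [SimpleGraph.Walk.take_length] at this
      omega
    · have h3 := SimpleGraph.dist_le (w.drop i)
      rw [SimpleGraph.Walk.drop_length] at h3
      have h4 := hG.dist_triangle (u := a) (v := w.getVert i) (w := b)
      omega
  choose v hv using hlevel
  have hlow := lower_bound G hG k₁ k₂ h1 h2 (fun x => G.dist a x)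
    (by
      intro x y
      have t1 := hG.dist_triangle (u := a) (v := x) (w := y)
      have t2 := hG.dist_triangle (u := a) (v := y) (w := x)
      have t3 : G.dist y x = G.dist x y := SimpleGraph.dist_comm
      unfold ad
      omega)
    (fun x => by rw [← hD]; exact le_diameter G a x) v hv
  rw [hcard] at hlow
  exact le_trans (upper_bound p k₁ k₂ hp) hlow

/-- The diameter of a connected graph is less than the number of vertices. -/
theorem diameter_lt {V : Type*} [Fintype V] (G : SimpleGraph V) (hG : G.Connected) :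
    diameter G < Fintype.card V := by
  classical
  have hne : Nonempty V := hG.nonempty
  obtain ⟨⟨a, b⟩, _, hab⟩ := Finset.exists_mem_eq_sup (Finset.univ : Finset (V × V))
    ⟨(hne.some, hne.some), Finset.mem_univ _⟩ (fun x : V × V => G.dist x.1 x.2)
  obtain ⟨w, hw, hl⟩ := hG.exists_path_of_dist a b
  have := hw.length_lt
  unfold diameter
  rw [hab]
  dsimp only
  omega

theorem sum_cast {V : Type*} [Fintype V] (G : SimpleGraph V) :
    (∑ u : V, ∑ v : V, (G.dist u v : ℝ)) = ((∑ u : V, ∑ v : V, G.dist u v : ℕ) : ℝ) := by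
  push_cast; rfl

/-- The total distance of a connected graph is at least `n (n - 1)`. -/
theorem total_ge {V : Type*} [Fintype V] (G : SimpleGraph V) (hG : G.Connected) :
    Fintype.card V * (Fintype.card V - 1) ≤ ∑ u : V, ∑ v : V, G.dist u v := by
  classical
  have : Fintype.card V * (Fintype.card V - 1) = ∑ u : V, (Fintype.card V - 1) := by
    rw [Finset.sum_const, smul_eq_mul, Finset.card_univ]
  rw [this]
  apply Finset.sum_le_sum
  intro u _
  rw [← Finset.card_univ, ← Finset.card_erase_of_mem (Finset.mem_univ u), Finset.card_eq_sum_ones,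
    ← Finset.add_sum_erase _ _ (Finset.mem_univ u)]
  refine le_trans ?_ (Nat.le_add_left _ _)
  apply Finset.sum_le_sum
  intro y hy
  exact Nat.one_le_iff_ne_zero.mpr
    (fun h => (Finset.ne_of_mem_erase hy) ((hG.dist_eq_zero_iff).mp h).symm)

/-- The total distance is at most `n (n - 1)` times the diameter. -/
theorem total_le_diameter {V : Type*} [Fintype V] (G : SimpleGraph V) :
    ∑ u : V, ∑ v : V, G.dist u v ≤ Fintype.card V * (Fintype.card V - 1) * diameter G := by
  classical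
  have : Fintype.card V * (Fintype.card V - 1) * diameter G
      = ∑ u : V, (Fintype.card V - 1) * diameter G := by
    rw [Finset.sum_const, smul_eq_mul, Finset.card_univ, mul_assoc]
  rw [this]
  apply Finset.sum_le_sum
  intro u _
  rw [← Finset.add_sum_erase _ _ (Finset.mem_univ u), SimpleGraph.dist_self, Nat.zero_add,
    ← Finset.card_univ, ← Finset.card_erase_of_mem (Finset.mem_univ u), ← smul_eq_mul]
  apply Finset.sum_le_card_nsmul
  intro y _
  exact le_diameter G u y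

theorem avg_pos {V : Type*} [Fintype V] (G : SimpleGraph V) (hG : G.Connected)
    (hV : 3 ≤ Fintype.card V) : 1 ≤ avgDist G := by
  unfold avgDist
  rw [sum_cast]
  have hc : (3 : ℝ) ≤ Fintype.card V := by exact_mod_cast hV
  have hpos : 0 < (Fintype.card V : ℝ) * ((Fintype.card V : ℝ) - 1) := by nlinarith
  rw [le_div_iff₀ hpos, one_mul]
  have h := total_ge G hG
  have h' : ((Fintype.card V * (Fintype.card V - 1) : ℕ) : ℝ)
      ≤ ((∑ u : V, ∑ v : V, G.dist u v : ℕ) : ℝ) := by exact_mod_cast h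
  rw [Nat.cast_mul, Nat.cast_sub (by omega), Nat.cast_one] at h'
  exact h'

theorem avg_le_diameter {V : Type*} [Fintype V] (G : SimpleGraph V)
    (hV : 3 ≤ Fintype.card V) : avgDist G ≤ diameter G := by
  unfold avgDist
  rw [sum_cast]
  have hc : (3 : ℝ) ≤ Fintype.card V := by exact_mod_cast hV
  have hpos : 0 < (Fintype.card V : ℝ) * ((Fintype.card V : ℝ) - 1) := by nlinarith
  rw [div_le_iff₀ hpos]
  have h := total_le_diameter G
  have h' : ((∑ u : V, ∑ v : V, G.dist u v : ℕ) : ℝ)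
      ≤ ((Fintype.card V * (Fintype.card V - 1) * diameter G : ℕ) : ℝ) := by exact_mod_cast h
  rw [Nat.cast_mul, Nat.cast_mul, Nat.cast_sub (by omega), Nat.cast_one] at h'
  linarith

theorem avg_bug_le {V : Type*} [Fintype V] (G : SimpleGraph V) (hG : G.Connected)
    (p k₁ k₂ : ℕ) (hp : 3 ≤ p) (h1 : k₁ ≤ k₂ + 1) (h2 : k₂ ≤ k₁ + 1)
    (hcard : Fintype.card V = p + k₁ + k₂) (hD : diameter G = k₁ + k₂ + 2) :
    avgDist (Bug p k₁ k₂) ≤ avgDist G := by
  unfold avgDist
  rw [sum_cast, sum_cast]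
  have hcV : Fintype.card (Fin p ⊕ (Fin k₁ ⊕ Fin k₂)) = p + k₁ + k₂ := by
    rw [Fintype.card_sum, Fintype.card_sum, Fintype.card_fin, Fintype.card_fin, Fintype.card_fin]
    ring
  rw [hcV, hcard]
  have hc : (3 : ℝ) ≤ ((p + k₁ + k₂ : ℕ) : ℝ) := by exact_mod_cast (by omega : 3 ≤ p + k₁ + k₂)
  have hpos : 0 < ((p + k₁ + k₂ : ℕ) : ℝ) * (((p + k₁ + k₂ : ℕ) : ℝ) - 1) := by nlinarith
  apply div_le_div_of_nonneg_right _ hpos.le
  exact_mod_cast total_le G hG p k₁ k₂ hp h1 h2 hcard hD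

/-- The maximum of diameter over average distance is attained by a balanced bug. -/
theorem exists_bug (n : ℕ) (hn : 3 ≤ n) :
    ∃ p k₁ k₂ : ℕ, 3 ≤ p ∧ p + k₁ + k₂ = n ∧ k₁ ≤ k₂ + 1 ∧ k₂ ≤ k₁ + 1 ∧
      ∀ (V : Type) [Fintype V] (G : SimpleGraph V), Fintype.card V = n → G.Connected →
        (diameter G : ℝ) / avgDist G ≤ (diameter (Bug p k₁ k₂) : ℝ) / avgDist (Bug p k₁ k₂) := by
  obtain ⟨D, hD, hmax⟩ := Finset.exists_max_image (Finset.Icc 2 (n - 1))
    (fun D => (diameter (Bug (n - (D - 2)) ((D - 2) / 2) (D - 2 - (D - 2) / 2)) : ℝ) /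
      avgDist (Bug (n - (D - 2)) ((D - 2) / 2) (D - 2 - (D - 2) / 2))) ⟨2, by simp; omega⟩
  rw [Finset.mem_Icc] at hD
  refine ⟨n - (D - 2), (D - 2) / 2, D - 2 - (D - 2) / 2, by omega, by omega, by omega, by omega, ?_⟩
  intro V _ G hV hG
  have hlt := diameter_lt G hG
  rw [hV] at hlt
  have havg := avg_pos G hG (by omega)
  rcases Nat.lt_or_ge (diameter G) 2 with h | h
  · -- diameter at most one
    refine le_trans ?_ (hmax 2 (by rw [Finset.mem_Icc]; omega))
    have hcB : ∀ p k₁ k₂ : ℕ, Fintype.card (Fin p ⊕ (Fin k₁ ⊕ Fin k₂)) = p + k₁ + k₂ := by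
      intro p k₁ k₂
      rw [Fintype.card_sum, Fintype.card_sum, Fintype.card_fin, Fintype.card_fin, Fintype.card_fin]
      ring
    have hB1 := avg_pos (Bug (n - (2 - 2)) ((2 - 2) / 2) (2 - 2 - (2 - 2) / 2))
      (bug_connected _ _ _ (by omega)) (by rw [hcB]; omega)
    have hB2 := avg_le_diameter (Bug (n - (2 - 2)) ((2 - 2) / 2) (2 - 2 - (2 - 2) / 2))
      (by rw [hcB]; omega)
    have e1 : (diameter G : ℝ) / avgDist G ≤ 1 := by
      rw [div_le_one (by linarith)]
      have : (diameter G : ℝ) ≤ 1 := by exact_mod_cast (by omega : diameter G ≤ 1)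
      linarith
    have e2 : (1 : ℝ) ≤ (diameter (Bug (n - (2 - 2)) ((2 - 2) / 2) (2 - 2 - (2 - 2) / 2)) : ℝ) /
        avgDist (Bug (n - (2 - 2)) ((2 - 2) / 2) (2 - 2 - (2 - 2) / 2)) := by
      rw [le_div_iff₀ (by linarith), one_mul]
      exact hB2
    exact le_trans e1 e2
  · refine le_trans ?_ (hmax (diameter G) (by rw [Finset.mem_Icc]; omega))
    have hp3 : 3 ≤ n - (diameter G - 2) := by omega
    have hle := avg_bug_le G hG (n - (diameter G - 2)) ((diameter G - 2) / 2)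
      (diameter G - 2 - (diameter G - 2) / 2) hp3 (by omega) (by omega) (by omega) (by omega)
    have hdB := diameter_bug (n - (diameter G - 2)) ((diameter G - 2) / 2)
      (diameter G - 2 - (diameter G - 2) / 2) hp3
    have hdB' : diameter (Bug (n - (diameter G - 2)) ((diameter G - 2) / 2)
      (diameter G - 2 - (diameter G - 2) / 2)) = diameter G := by rw [hdB]; omega
    rw [hdB']
    have hcB : ∀ p k₁ k₂ : ℕ, Fintype.card (Fin p ⊕ (Fin k₁ ⊕ Fin k₂)) = p + k₁ + k₂ := by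
      intro p k₁ k₂
      rw [Fintype.card_sum, Fintype.card_sum, Fintype.card_fin, Fintype.card_fin, Fintype.card_fin]
      ring
    have hB1 := avg_pos (Bug (n - (diameter G - 2)) ((diameter G - 2) / 2)
      (diameter G - 2 - (diameter G - 2) / 2)) (bug_connected _ _ _ hp3) (by rw [hcB]; omega)
    apply div_le_div_of_nonneg_left (Nat.cast_nonneg _) (by linarith) hle

end Pool.Agent.N944.BG
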